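import Mathlib
import Pool.Agent.W2helper8.ZQ.Stm

/-!
Project ZQ, piece DV: the size of the generalised divisor function.
-/

set_option autoImplicit false

namespace Pool.Agent.W2helper92.ZQ

open Finset Filter Topology
open Pool.Agent.H306R2 (dv lc)
open Pool.Agent.W2helper8.ZQ (S_DV)

lemma lc_abs (b : ℝ) (m : ℕ) : |lc b m| ≤ lc |b| m := by
  unfold lc
  rw [Finset.abs_prod]
  refine prod_le_prod (fun i _ => abs_nonneg _) fun i _ => ?_
  rw [abs_div, abs_of_pos (show (0:ℝ) < (i:ℝ) + 1 by positivity)]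
  gcongr
  calc |b + i| ≤ |b| + |(i:ℝ)| := abs_add_le _ _
    _ = |b| + i := by rw [Nat.abs_cast]

lemma lc_nn {B : ℝ} (hB : 0 ≤ B) (m : ℕ) : 0 ≤ lc B m := by
  unfold lc
  exact prod_nonneg fun i _ => by positivity

lemma lc_geo {B r : ℝ} (hB : 0 ≤ B) (h1 : 1 ≤ r) (h2 : B ≤ r) (m : ℕ) : lc B m ≤ r ^ m := by
  unfold lc
  calc ∏ i ∈ range m, (B + i) / ((i : ℝ) + 1) ≤ ∏ i ∈ range m, r := by
        refine prod_le_prod (fun i _ => by positivity) fun i _ => ?_
        rw [div_le_iff₀ (by positivity)]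
        have h3 : 0 ≤ (r - 1) * i := mul_nonneg (by linarith) (Nat.cast_nonneg i)
        linarith
    _ = r ^ m := by simp

lemma lc_suc (B : ℝ) (m : ℕ) : lc B (m + 1) = lc B m * ((B + m) / ((m : ℝ) + 1)) := by
  unfold lc
  rw [prod_range_succ]

lemma lc_geo' {B r : ℝ} (hB : 0 ≤ B) (h1 : 1 < r) : ∃ K : ℝ, 1 ≤ K ∧ ∀ m, lc B m ≤ K * r ^ m := by
  obtain ⟨i₀, hi₀⟩ := exists_nat_ge (B / (r - 1))
  have hS : 0 ≤ ∑ i ∈ range (i₀ + 1), lc B i := sum_nonneg fun i _ => lc_nn hB i
  have hK : 1 ≤ ∑ i ∈ range (i₀ + 1), lc B i + 1 := by linarith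
  have hs : ∀ m, m ≤ i₀ → lc B m ≤ (∑ i ∈ range (i₀ + 1), lc B i + 1) * r ^ m := by
    intro m hm
    have h3 : lc B m ≤ ∑ i ∈ range (i₀ + 1), lc B i :=
      single_le_sum (f := fun i => lc B i) (fun i _ => lc_nn hB i) (mem_range.2 (by omega))
    have h4 : 1 ≤ r ^ m := one_le_pow₀ h1.le
    calc lc B m ≤ (∑ i ∈ range (i₀ + 1), lc B i + 1) * 1 := by linarith
      _ ≤ _ := by gcongr
  refine ⟨∑ i ∈ range (i₀ + 1), lc B i + 1, hK, fun m => ?_⟩
  rcases le_total m i₀ with hm | hm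
  · exact hs m hm
  · induction m, hm using Nat.le_induction with
    | base => exact hs i₀ le_rfl
    | succ m hm ih =>
      rw [lc_suc, pow_succ, ← mul_assoc]
      have h5 : (B + m) / ((m : ℝ) + 1) ≤ r := by
        rw [div_le_iff₀ (by positivity)]
        rw [div_le_iff₀ (by linarith)] at hi₀
        have h6 : (i₀ : ℝ) * (r - 1) ≤ m * (r - 1) :=
          mul_le_mul_of_nonneg_right (by exact_mod_cast hm) (by linarith)
        nlinarith
      exact mul_le_mul ih h5 (by positivity) (by positivity)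

theorem p_dv : S_DV := by
  intro b ε hε
  have h2 : (1 : ℝ) < 2 ^ ε := Real.one_lt_rpow (by norm_num) hε
  obtain ⟨K, hK1, hK⟩ := lc_geo' (abs_nonneg b) h2
  obtain ⟨P, hP⟩ := exists_nat_ge ((max 1 |b|) ^ (1 / ε))
  have hK0 : 0 < K := by linarith
  refine ⟨K ^ P, by positivity, fun n hn => ?_⟩
  have hn0 : n ≠ 0 := by omega
  have hbig : ∀ p : ℕ, P ≤ p → ∀ m, lc |b| m ≤ ((p : ℝ) ^ ε) ^ m := by
    intro p hp m
    have h3 : max 1 |b| ≤ (p : ℝ) ^ ε := by
      have h4 : (max 1 |b|) ^ (1 / ε) ≤ (p : ℝ) := hP.trans (by exact_mod_cast hp)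
      have h5 : (0 : ℝ) ≤ max 1 |b| := le_max_of_le_left zero_le_one
      calc max 1 |b| = ((max 1 |b|) ^ (1 / ε)) ^ ε := by
            rw [← Real.rpow_mul h5, one_div, inv_mul_cancel₀ hε.ne', Real.rpow_one]
        _ ≤ (p : ℝ) ^ ε := by gcongr
    exact lc_geo (abs_nonneg b) ((le_max_left _ _).trans h3) ((le_max_right _ _).trans h3) m
  have hall : ∀ p : ℕ, 2 ≤ p → ∀ m, lc |b| m ≤ (if p < P then K else 1) * ((p : ℝ) ^ ε) ^ m := by
    intro p hp m
    split_ifs with h
    · refine (hK m).trans ?_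
      gcongr
      exact_mod_cast hp
    · rw [one_mul]
      exact hbig p (by omega) m
  unfold dv
  rw [if_neg hn0, Finsupp.prod, Finset.abs_prod]
  have e1 : (n : ℝ) ^ ε = ∏ p ∈ n.factorization.support, ((p : ℝ) ^ ε) ^ (n.factorization p) := by
    conv_lhs => rw [← Nat.prod_factorization_pow_eq_self hn0]
    rw [Finsupp.prod]
    push_cast
    rw [← Real.finsetProd_rpow _ _ (fun i _ => by positivity)]
    refine prod_congr rfl fun p _ => ?_
    rw [← Real.rpow_natCast, ← Real.rpow_natCast, ← Real.rpow_mul (by positivity),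
      ← Real.rpow_mul (by positivity), mul_comm]
  have e2 : ∏ p ∈ n.factorization.support, (if p < P then K else 1) ≤ K ^ P := by
    rw [Finset.prod_ite]
    simp only [prod_const, one_pow, mul_one]
    refine pow_le_pow_right₀ hK1 ?_
    calc #({x ∈ n.factorization.support | x < P}) ≤ #(range P) :=
          card_le_card fun x hx => mem_range.2 (mem_filter.1 hx).2
      _ = P := card_range P
  calc ∏ p ∈ n.factorization.support, |lc b (n.factorization p)|
      ≤ ∏ p ∈ n.factorization.support, ((if p < P then K else 1) * ((p : ℝ) ^ ε) ^ (n.factorization p)) := by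
        refine prod_le_prod (fun _ _ => abs_nonneg _) fun p hp => ?_
        have hpp : p.Prime := Nat.prime_of_mem_primeFactors (by simpa using hp)
        exact (lc_abs b _).trans (hall p hpp.two_le _)
    _ = (∏ p ∈ n.factorization.support, (if p < P then K else 1)) * (n : ℝ) ^ ε := by
        rw [prod_mul_distrib, ← e1]
    _ ≤ K ^ P * (n : ℝ) ^ ε := by gcongr

end Pool.Agent.W2helper92.ZQ
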