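import Mathlib
import Pool.Agent.W2helper8.ZQ.Stm

/-!
Project ZQ, piece TRAP: trapezoidal weights.
-/

set_option autoImplicit false

namespace Pool.Agent.W2helper92.ZQ

open Finset Filter Topology MeasureTheory Complex
open Pool.Agent.W2helper8.ZQ

noncomputable section

/-- the ramp -/
def tr (A δ t : ℝ) : ℝ := max 0 (min 1 ((t - A) / δ))

lemma tr_cont (A δ : ℝ) : Continuous (tr A δ) := by unfold tr; fun_prop

lemma tr_zero {A δ t : ℝ} (hδ : 0 < δ) (h : t ≤ A) : tr A δ t = 0 := by
  unfold tr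
  have h1 : (t - A) / δ ≤ 0 := div_nonpos_of_nonpos_of_nonneg (by linarith) hδ.le
  exact max_eq_left ((min_le_right _ _).trans h1)

lemma tr_one {A δ t : ℝ} (hδ : 0 < δ) (h : A + δ ≤ t) : tr A δ t = 1 := by
  unfold tr
  have h1 : 1 ≤ (t - A) / δ := by rw [le_div_iff₀ hδ]; linarith
  rw [min_eq_left h1, max_eq_right zero_le_one]

lemma tr_mid {A δ t : ℝ} (hδ : 0 < δ) (h1 : A ≤ t) (h2 : t ≤ A + δ) : tr A δ t = (t - A) / δ := by
  unfold tr
  have h3 : (t - A) / δ ≤ 1 := by rw [div_le_iff₀ hδ]; linarith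
  have h4 : 0 ≤ (t - A) / δ := div_nonneg (by linarith) hδ.le
  rw [min_eq_right h3, max_eq_right h4]

lemma tr_nonneg (A δ t : ℝ) : 0 ≤ tr A δ t := le_max_left _ _

lemma tr_le_one (A δ t : ℝ) : tr A δ t ≤ 1 := max_le zero_le_one (min_le_left _ _)

lemma tr_anti {A B δ : ℝ} (t : ℝ) (hδ : 0 < δ) (h : A ≤ B) : tr B δ t ≤ tr A δ t := by
  unfold tr
  gcongr

lemma e_deriv (l t : ℝ) : HasDerivAt (fun t : ℝ => e (l * t)) (I * l * e (l * t)) t := by
  unfold e
  have h1 : HasDerivAt (fun t : ℝ => (((l * t : ℝ) : ℂ) * I)) (l * I) t := by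
    have h2 : HasDerivAt (fun t : ℝ => ((l * t : ℝ) : ℂ)) (l : ℂ) t := by
      have h3 : HasDerivAt (fun t : ℝ => l * t) l t := by
        simpa using (hasDerivAt_id t).const_mul l
      exact h3.ofReal_comp
    exact h2.mul_const I
  have h4 := h1.cexp
  convert h4 using 1
  ring

lemma tr_int {A δ a b l : ℝ} (hδ : 0 < δ) (ha : a ≤ A) (hb : A + δ ≤ b) (hl : l ≠ 0) :
    ∫ t in a..b, (tr A δ t : ℂ) * e (l * t) =
      e (l * b) / (I * l) + (e (l * (A + δ)) - e (l * A)) / (δ * l ^ 2) := by
  have hc : ∀ x y : ℝ, IntervalIntegrable (fun t => (tr A δ t : ℂ) * e (l * t)) volume x y := fun x y =>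
    Continuous.intervalIntegrable (by
      have h1 := tr_cont A δ
      have h2 := e_cont
      fun_prop) x y
  rw [← intervalIntegral.integral_add_adjacent_intervals (hc a A) (hc A b),
    ← intervalIntegral.integral_add_adjacent_intervals (hc A (A + δ)) (hc (A + δ) b)]
  have hl' : (l : ℂ) ≠ 0 := by exact_mod_cast hl
  have hδ' : (δ : ℂ) ≠ 0 := by exact_mod_cast hδ.ne'
  have h1 : ∫ t in a..A, (tr A δ t : ℂ) * e (l * t) = 0 := by
    rw [intervalIntegral.integral_congr (g := fun _ => 0)]
    · simp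
    · intro t ht
      rw [Set.uIcc_of_le ha] at ht
      simp [tr_zero hδ ht.2]
  have h2 : ∫ t in A..(A + δ), (tr A δ t : ℂ) * e (l * t) =
      ∫ t in A..(A + δ), (((t : ℂ) - A) / δ) * e (l * t) := by
    refine intervalIntegral.integral_congr ?_
    intro t ht
    rw [Set.uIcc_of_le (by linarith)] at ht
    simp only
    rw [tr_mid hδ ht.1 ht.2]
    push_cast
    ring
  have h3 : ∫ t in (A + δ)..b, (tr A δ t : ℂ) * e (l * t) = ∫ t in (A + δ)..b, e (l * t) := by
    refine intervalIntegral.integral_congr ?_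
    intro t ht
    rw [Set.uIcc_of_le hb] at ht
    simp only
    rw [tr_one hδ ht.1]
    push_cast
    ring
  have h4 : ∫ t in (A + δ)..b, e (l * t) = e (l * b) / (I * l) - e (l * (A + δ)) / (I * l) := by
    refine intervalIntegral.integral_eq_sub_of_hasDerivAt (f := fun t : ℝ => e (l * t) / (I * l)) ?_ ?_
    · intro t _
      have h5 := (e_deriv l t).div_const (I * l)
      rwa [mul_div_cancel_left₀ _ (mul_ne_zero I_ne_zero hl')] at h5
    · exact Continuous.intervalIntegrable (by have h2 := e_cont; fun_prop) _ _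
  have h5 : ∫ t in A..(A + δ), (((t : ℂ) - A) / δ) * e (l * t) =
      ((((A + δ : ℝ) : ℂ) - A) / δ * e (l * (A + δ)) / (I * l) + e (l * (A + δ)) / (δ * l ^ 2)) -
      (((A : ℂ) - A) / δ * e (l * A) / (I * l) + e (l * A) / (δ * l ^ 2)) := by
    refine intervalIntegral.integral_eq_sub_of_hasDerivAt
      (f := fun t : ℝ => ((t : ℂ) - A) / δ * e (l * t) / (I * l) + e (l * t) / (δ * l ^ 2)) ?_ ?_
    · intro t _
      have h6 : HasDerivAt (fun t : ℝ => ((t : ℂ) - A) / δ) (1 / δ) t := by
        have h7 : HasDerivAt (fun t : ℝ => (t : ℂ)) 1 t := by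
          simpa using (hasDerivAt_id t).ofReal_comp
        exact (h7.sub_const _).div_const _
      have h8 := ((h6.mul (e_deriv l t)).div_const (I * l)).add ((e_deriv l t).div_const (δ * l ^ 2))
      have h9 : (1 / (δ : ℂ) * e (l * t) + ((t : ℂ) - A) / δ * (I * l * e (l * t))) / (I * l) +
          I * l * e (l * t) / (δ * l ^ 2) = ((t : ℂ) - A) / δ * e (l * t) := by
        have hI : (I : ℂ) ^ 2 = -1 := I_sq
        have hI0 := I_ne_zero
        field_simp
        linear_combination (e (l * t)) * hI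
      rwa [h9] at h8
    · exact Continuous.intervalIntegrable (by have h2 := e_cont; fun_prop) _ _
  rw [h1, h2, h3, h4, h5]
  push_cast
  field_simp
  ring

lemma tr_mass {A δ a b : ℝ} (hδ : 0 < δ) (ha : a ≤ A) (hb : A + δ ≤ b) :
    ∫ t in a..b, tr A δ t = b - A - δ / 2 := by
  have hc : ∀ x y : ℝ, IntervalIntegrable (tr A δ) volume x y := fun x y =>
    (tr_cont A δ).intervalIntegrable x y
  rw [← intervalIntegral.integral_add_adjacent_intervals (hc a A) (hc A b),
    ← intervalIntegral.integral_add_adjacent_intervals (hc A (A + δ)) (hc (A + δ) b)]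
  have h1 : ∫ t in a..A, tr A δ t = 0 := by
    rw [intervalIntegral.integral_congr (g := fun _ => 0)]
    · simp
    · intro t ht
      rw [Set.uIcc_of_le ha] at ht
      simp [tr_zero hδ ht.2]
  have h2 : ∫ t in A..(A + δ), tr A δ t = ∫ t in A..(A + δ), (t - A) / δ := by
    refine intervalIntegral.integral_congr ?_
    intro t ht
    rw [Set.uIcc_of_le (by linarith)] at ht
    exact tr_mid hδ ht.1 ht.2
  have h3 : ∫ t in (A + δ)..b, tr A δ t = ∫ t in (A + δ)..b, (1 : ℝ) := by
    refine intervalIntegral.integral_congr ?_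
    intro t ht
    rw [Set.uIcc_of_le hb] at ht
    exact tr_one hδ ht.1
  have h5 : ∫ t in A..(A + δ), (t - A) / δ = (A + δ - A) ^ 2 / (2 * δ) - (A - A) ^ 2 / (2 * δ) := by
    refine intervalIntegral.integral_eq_sub_of_hasDerivAt (f := fun t : ℝ => (t - A) ^ 2 / (2 * δ)) ?_ ?_
    · intro t _
      have h7 := (((hasDerivAt_id t).sub_const A).pow 2).div_const (2 * δ)
      have h8 : ((2 : ℕ) : ℝ) * (id t - A) ^ (2 - 1) * 1 / (2 * δ) = (t - A) / δ := by
        simp
        field_simp
      rw [h8] at h7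
      exact h7
    · exact Continuous.intervalIntegrable (by fun_prop) _ _
  rw [h1, h2, h3, h5]
  simp
  field_simp
  ring

/-- the trapezoid -/
def tz (A B δ t : ℝ) : ℝ := tr A δ t - tr B δ t

lemma tz_wt {A B δ T κ C : ℝ} (hT : 1 ≤ T) (hδ : 0 < δ) (hA : T / 2 ≤ A) (hAB : A ≤ B) (hB : B + δ ≤ 3 * T)
    (hm : B - A = κ * T) (hC : 4 * T ≤ C * δ) : Wt C κ T (tz A B δ) where
  cont := (tr_cont A δ).sub (tr_cont B δ)
  nn t := sub_nonneg.2 (tr_anti t hδ hAB)
  le1 t := by
    have h1 := tr_le_one A δ t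
    have h2 := tr_nonneg B δ t
    unfold tz
    linarith
  supp t h := by
    constructor
    · by_contra h1
      rw [not_le] at h1
      apply h
      unfold tz
      rw [tr_zero hδ (by linarith), tr_zero hδ (by linarith), sub_zero]
    · by_contra h1
      rw [not_le] at h1
      apply h
      unfold tz
      rw [tr_one hδ (by linarith), tr_one hδ (by linarith), sub_self]
  mass := by
    unfold tz
    rw [intervalIntegral.integral_sub ((tr_cont A δ).intervalIntegrable _ _)
      ((tr_cont B δ).intervalIntegrable _ _), tr_mass hδ hA (by linarith), tr_mass hδ (by linarith) hB]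
    linarith
  dec l hl := by
    have hl2 : 0 < l ^ 2 := by positivity
    have h1 : ∫ t in (T / 2)..(3 * T), (tz A B δ t : ℂ) * e (l * t) =
        (e (l * (A + δ)) - e (l * A) - e (l * (B + δ)) + e (l * B)) / (δ * l ^ 2) := by
      have h2 : ∀ t : ℝ, (tz A B δ t : ℂ) * e (l * t) =
          (tr A δ t : ℂ) * e (l * t) - (tr B δ t : ℂ) * e (l * t) := by
        intro t
        unfold tz
        push_cast
        ring
      simp_rw [h2]
      have h3 := tr_cont A δ
      have h4 := tr_cont B δ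
      have h5 := e_cont
      rw [intervalIntegral.integral_sub (Continuous.intervalIntegrable (by fun_prop) _ _)
        (Continuous.intervalIntegrable (by fun_prop) _ _), tr_int hδ hA (by linarith) hl,
        tr_int hδ (by linarith) hB hl]
      ring
    rw [h1, norm_div]
    have h6 : ‖e (l * (A + δ)) - e (l * A) - e (l * (B + δ)) + e (l * B)‖ ≤ 4 := by
      have h7 := norm_add_le (e (l * (A + δ)) - e (l * A) - e (l * (B + δ))) (e (l * B))
      have h8 := norm_sub_le (e (l * (A + δ)) - e (l * A)) (e (l * (B + δ)))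
      have h9 := norm_sub_le (e (l * (A + δ))) (e (l * A))
      rw [norm_e] at h7 h8 h9
      rw [norm_e] at h9
      linarith
    have h10 : ‖(δ * l ^ 2 : ℂ)‖ = δ * l ^ 2 := by
      rw [norm_mul, norm_pow, Complex.norm_real, Complex.norm_real, Real.norm_eq_abs, Real.norm_eq_abs,
        abs_of_pos hδ, sq_abs]
    rw [h10, div_le_div_iff₀ (by positivity) (by positivity)]
    calc ‖e (l * (A + δ)) - e (l * A) - e (l * (B + δ)) + e (l * B)‖ * (T * l ^ 2)
        ≤ 4 * (T * l ^ 2) := by gcongr
      _ = (4 * T) * l ^ 2 := by ring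
      _ ≤ (C * δ) * l ^ 2 := by gcongr
      _ = C * (δ * l ^ 2) := by ring

theorem p_trap : S_TRAP := by
  intro ε hε hε4
  refine ⟨4 / ε, by positivity, fun T hT => ?_⟩
  have hT0 : 0 < T := by linarith
  have hεT : 0 < ε * T := by positivity
  have h4 : ε * T ≤ 1 / 4 * T := by gcongr
  have hC : 4 * T ≤ 4 / ε * (ε * T) := by
    rw [show 4 / ε * (ε * T) = 4 * T by field_simp]
  constructor
  · refine ⟨tz (T - ε * T) (2 * T) (ε * T),
      tz_wt hT hεT (by linarith) (by linarith) (by linarith) (by ring) hC, ?_⟩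
    intro t ht
    unfold tz
    rw [tr_one hεT (by linarith [ht.1]), tr_zero hεT ht.2, sub_zero]
  · refine ⟨tz T (2 * T - ε * T) (ε * T),
      tz_wt hT hεT (by linarith) (by linarith) (by linarith) (by ring) hC, ?_⟩
    intro t ht
    unfold tz
    rw [Set.mem_Icc, not_and_or, not_le, not_le] at ht
    rcases ht with ht | ht
    · rw [tr_zero hεT ht.le, tr_zero hεT (by linarith), sub_zero]
    · rw [tr_one hεT (by linarith), tr_one hεT (by linarith), sub_self]

end

end Pool.Agent.W2helper92.ZQ
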